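import Pool.Agent.K1H2.UB.Stm

/-! Piece GEO of project UB (helper2): geometry of the image charge. -/

set_option autoImplicit false

open Finset Pool.Agent.K1H53.BI Pool.Agent.K1H2.UB

namespace Pool.Agent.K1H18.UB

lemma len_eq (w : Fin 3 → ℝ) : len w = ‖(WithLp.toLp 2 w : EuclideanSpace ℝ (Fin 3))‖ := by
  rw [EuclideanSpace.norm_eq]
  unfold len q
  congr 1
  refine Finset.sum_congr rfl fun i _ => ?_
  rw [Real.norm_eq_abs, sq_abs]

lemma len_nonneg (w : Fin 3 → ℝ) : 0 ≤ len w := Real.sqrt_nonneg _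

lemma q_nonneg (w : Fin 3 → ℝ) : 0 ≤ q w := Finset.sum_nonneg fun i _ => sq_nonneg _

lemma len_sq (w : Fin 3 → ℝ) : len w ^ 2 = q w := Real.sq_sqrt (q_nonneg w)

lemma len_add (a b : Fin 3 → ℝ) : len (a + b) ≤ len a + len b := by
  rw [len_eq, len_eq, len_eq, WithLp.toLp_add]
  exact norm_add_le _ _

lemma len_smul (c : ℝ) (w : Fin 3 → ℝ) : len (fun i => c * w i) = |c| * len w := by
  have h : q (fun i => c * w i) = c ^ 2 * q w := by
    unfold q
    rw [Finset.mul_sum]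
    refine Finset.sum_congr rfl fun i _ => ?_
    ring
  unfold len
  rw [h, Real.sqrt_mul (sq_nonneg c), Real.sqrt_sq_eq_abs]

lemma len_neg (w : Fin 3 → ℝ) : len (-w) = len w := by
  have h := len_smul (-1) w
  rw [abs_neg, abs_one, one_mul] at h
  rw [← h]
  congr 1
  funext i
  simp

lemma q_rv (z : V) : q (rv z) = (nsq z : ℝ) := by
  unfold q rv nsq
  push_cast
  refine Finset.sum_congr rfl fun i _ => ?_
  have h : ((z i).natAbs : ℝ) = |(z i : ℝ)| := by
    rw [Nat.cast_natAbs, Int.cast_abs]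
  rw [h, sq_abs]

lemma len_rv (z : V) : len (rv z) = nrm z := by
  unfold len nrm
  rw [q_rv]

theorem t_GEO : S_GEO := by
  intro N z hR
  obtain ⟨far, big⟩ := hR
  have hN : (N : ℝ) = nrm z + dl N z := by unfold dl; ring
  obtain ⟨ζ, hζ⟩ : ∃ ζ : ℝ, ζ = nrm z := ⟨_, rfl⟩
  obtain ⟨δ, hδ⟩ : ∃ δ : ℝ, δ = dl N z := ⟨_, rfl⟩
  rw [← hζ, ← hδ] at hN
  rw [← hζ] at far
  rw [← hδ] at big
  have hδζ : δ ≤ 3 * ζ := by linarith
  have hζ0 : 0 < ζ := by linarith
  have hδ0 : 0 < δ := by linarith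
  obtain ⟨r, hr⟩ : ∃ r : ℝ, r = δ / ζ := ⟨_, rfl⟩
  have er : δ = r * ζ := by rw [hr]; field_simp
  have r0 : 0 ≤ r := by rw [hr]; positivity
  have r3 : r ≤ 3 := by
    rw [hr, div_le_iff₀ hζ0]; exact hδζ
  have hrho : rho N z = ζ + 9 / 10 * δ := by
    unfold rho
    rw [← hδ, hN]; ring
  have hkap : kap N z = 1 + 9 / 10 * r := by
    unfold kap
    rw [hrho, ← hζ, hr]
    field_simp
  have hk1 : 1 ≤ kap N z := by rw [hkap]; linarith
  have hlz : len (rv z) = ζ := by rw [len_rv, hζ]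
  have hkz : kap N z * ζ = rho N z := by
    rw [hkap, hrho, er]; ring
  have hzs : zs N z = fun i => kap N z ^ 2 * rv z i := rfl
  have hlzs : len (zs N z) = kap N z ^ 2 * ζ := by
    rw [hzs, len_smul, hlz, abs_of_nonneg (sq_nonneg _)]
  have hdiff : rv z - zs N z = fun i => (1 - kap N z ^ 2) * rv z i := by
    funext i
    simp only [Pi.sub_apply, hzs]
    ring
  have hh : len (rv z - zs N z) = (kap N z ^ 2 - 1) * ζ := by
    rw [hdiff, len_smul, hlz, abs_of_nonpos (by nlinarith)]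
    ring
  have hh2 : (kap N z ^ 2 - 1) * ζ = 9 / 5 * δ + 81 / 100 * (r * δ) := by
    rw [hkap, er]; ring
  have rd0 : 0 ≤ r * δ := mul_nonneg r0 hδ0.le
  have rd3 : r * δ ≤ 3 * δ := mul_le_mul_of_nonneg_right r3 hδ0.le
  have hhle : len (rv z - zs N z) ≤ 423 / 100 * δ := by
    rw [hh, hh2]; linarith
  refine ⟨hk1, ?_, ?_, ?_, ?_, ?_, ?_⟩
  · rw [hkap]; linarith
  · rw [hh, hh2, ← hδ]; linarith
  · rw [← hδ]; linarith
  · intro w
    have e1 : q (rv z) = ζ ^ 2 := by rw [← len_sq, hlz]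
    have e2 : kap N z ^ 2 * q (w - rv z) - q (w - zs N z) =
        (kap N z ^ 2 - 1) * (q w - kap N z ^ 2 * q (rv z)) := by
      unfold q
      simp only [Fin.sum_univ_three, Pi.sub_apply, hzs]
      ring
    rw [e2, e1, ← hkz]
    ring
  · intro w hw
    have h1 : len (zs N z) ≤ len (w - zs N z) + len w := by
      have h2 := len_add (-(w - zs N z)) w
      rw [len_neg] at h2
      have e : -(w - zs N z) + w = zs N z := by abel
      rw [e] at h2
      exact h2
    have h3 : kap N z ^ 2 * ζ = ζ + (9 / 5 * δ + 81 / 100 * (r * δ)) := by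
      rw [← hh2]; ring
    have h4 : δ / 2 ≤ len (w - zs N z) := by
      rw [hlzs, h3] at h1
      linarith
    refine ⟨by rw [← hδ]; exact h4, ?_⟩
    have h5 : len (w - rv z) ≤ len (w - zs N z) + len (rv z - zs N z) := by
      have h6 := len_add (w - zs N z) (-(rv z - zs N z))
      rw [len_neg] at h6
      have e : (w - zs N z) + -(rv z - zs N z) = w - rv z := by abel
      rw [e] at h6
      exact h6
    linarith
  · rw [hlzs, ← hkz, ← hζ]
    field_simp

end Pool.Agent.K1H18.UB
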